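import Mathlib

set_option autoImplicit false

/-!
# A quadratic with restricted range on `{0,1}^3` of large rank (MP_d05de0_co)
-/

namespace Pool.Agent.Results.MP_d05de0_co.RankTwo

open MvPolynomial

/-- `Q` is a product of polynomials each of total degree at most `d`
(degree-`d` rank at most one). -/
def IsProd {p n : ℕ} (d : ℕ) (Q : MvPolynomial (Fin n) (ZMod p)) : Prop :=
  ∃ l : List (MvPolynomial (Fin n) (ZMod p)), (∀ g ∈ l, g.totalDegree ≤ d) ∧ Q = l.prod

/-- `Q` is a sum of `k` polynomials of degree-`d` rank at most one, each of degree at most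
`deg Q`. -/
def SumProd {p n : ℕ} (d k : ℕ) (Q : MvPolynomial (Fin n) (ZMod p)) : Prop :=
  ∃ f : Fin k → MvPolynomial (Fin n) (ZMod p),
    (∀ i, IsProd d (f i) ∧ (f i).totalDegree ≤ Q.totalDegree) ∧ Q = ∑ i, f i

/-- The degree-`d` rank (`d ≥ 1`): the least `k` with `SumProd d k Q`. -/
noncomputable def rk {p n : ℕ} (d : ℕ) (Q : MvPolynomial (Fin n) (ZMod p)) : ℕ∞ :=
  ⨅ (k : ℕ) (_ : SumProd d k Q), (k : ℕ∞)

/-- The degree-`d` rank relative to `S`: the least rank of `P - P₀`, where `deg P₀ ≤ deg P` and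
`P₀` vanishes on `S^n`. -/
noncomputable def rkRel {p n : ℕ} (d : ℕ) (S : Set (ZMod p))
    (P : MvPolynomial (Fin n) (ZMod p)) : ℕ∞ :=
  ⨅ (P₀ : MvPolynomial (Fin n) (ZMod p)) (_ : P₀.totalDegree ≤ P.totalDegree ∧
    ∀ x : Fin n → ZMod p, (∀ i, x i ∈ S) → eval x P₀ = 0), rk d (P - P₀)

/-- The rank relative to `S` up to constants. -/
noncomputable def rkRelConst {p n : ℕ} (d : ℕ) (S : Set (ZMod p))
    (P : MvPolynomial (Fin n) (ZMod p)) : ℕ∞ :=
  ⨅ c : ZMod p, rkRel d S (P - C c)

theorem key : ∀ c a0 a1 a2 a3 b0 b1 b2 b3 : Fin 3,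
    ¬ ((0 - c = a0 * b0) ∧ (0 - c = (a0 + a1) * (b0 + b1)) ∧ (1 - c = (a0 + a2) * (b0 + b2)) ∧
      (0 - c = (a0 + a3) * (b0 + b3)) ∧ (0 - c = (a0 + a1 + a2) * (b0 + b1 + b2)) ∧
      (1 - c = (a0 + a1 + a3) * (b0 + b1 + b3)) ∧ (1 - c = (a0 + a2 + a3) * (b0 + b2 + b3)) ∧
      (1 - c = (a0 + a1 + a2 + a3) * (b0 + b1 + b2 + b3))) := by
  decide +kernel

theorem key' : ∀ c a0 a1 a2 a3 b0 b1 b2 b3 : ZMod 3,
    ¬ ((0 - c = a0 * b0) ∧ (0 - c = (a0 + a1) * (b0 + b1)) ∧ (1 - c = (a0 + a2) * (b0 + b2)) ∧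
      (0 - c = (a0 + a3) * (b0 + b3)) ∧ (0 - c = (a0 + a1 + a2) * (b0 + b1 + b2)) ∧
      (1 - c = (a0 + a1 + a3) * (b0 + b1 + b3)) ∧ (1 - c = (a0 + a2 + a3) * (b0 + b2 + b3)) ∧
      (1 - c = (a0 + a1 + a2 + a3) * (b0 + b1 + b2 + b3))) :=
  key

instance : Fact (Nat.Prime 3) := ⟨by norm_num⟩

theorem affine_eval {p n : ℕ} (L : MvPolynomial (Fin n) (ZMod p)) (h : L.totalDegree ≤ 1)
    (x : Fin n → ZMod p) :
    eval x L = coeff 0 L + ∑ i, coeff (Finsupp.single i 1) L * x i := by
  classical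
  rw [MvPolynomial.eval_eq']
  have hinj : Function.Injective (fun i : Fin n => (Finsupp.single i 1 : Fin n →₀ ℕ)) :=
    fun i j hij => by
      have := Finsupp.single_left_injective (one_ne_zero) hij
      exact this
  have hsub : L.support ⊆ insert 0 (Finset.univ.image fun i : Fin n =>
      (Finsupp.single i 1 : Fin n →₀ ℕ)) := by
    intro m hm
    have h1 := le_totalDegree hm
    rw [Finset.mem_insert, Finset.mem_image]
    have h2 : (m.sum fun _ e => e) = 0 ∨ (m.sum fun _ e => e) = 1 := by omega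
    rcases h2 with h2 | h2
    · left
      have : m.degree = 0 := h2
      rwa [Finsupp.degree_eq_zero_iff] at this
    · right
      obtain ⟨a, ha⟩ := (Finsupp.sum_eq_one_iff m).1 h2
      exact ⟨a, Finset.mem_univ _, ha.symm⟩
  rw [Finset.sum_subset hsub]
  · rw [Finset.sum_insert, Finset.sum_image (fun i _ j _ hij => hinj hij)]
    · simp only [Finsupp.coe_zero, Pi.zero_apply, pow_zero, Finset.prod_const_one, mul_one]
      congr 1
      refine Finset.sum_congr rfl fun i _ => ?_
      congr 1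
      rw [Finset.prod_eq_single i]
      · simp
      · intro j _ hj
        rw [Finsupp.single_eq_of_ne hj, pow_zero]
      · intro hi
        exact absurd (Finset.mem_univ _) hi
    · intro h0
      rw [Finset.mem_image] at h0
      obtain ⟨i, _, hi⟩ := h0
      have := congrArg (fun m : Fin n →₀ ℕ => m i) hi
      simp at this
  · intro m _ hm
    rw [notMem_support_iff.1 hm, zero_mul]

/-- a nonzero product of degree at most two is a product of two factors of degree at most one -/
theorem two_factors {n : ℕ} (l : List (MvPolynomial (Fin n) (ZMod 3)))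
    (hl : ∀ g ∈ l, g.totalDegree ≤ 1) (h0 : l.prod ≠ 0) (h2 : l.prod.totalDegree ≤ 2) :
    ∃ L₁ L₂ : MvPolynomial (Fin n) (ZMod 3), L₁.totalDegree ≤ 1 ∧ L₂.totalDegree ≤ 1 ∧
      l.prod = L₁ * L₂ := by
  induction l with
  | nil => exact ⟨1, 1, by simp, by simp, by simp⟩
  | cons g l ih =>
    rw [List.prod_cons] at h0 h2 ⊢
    have hg : g ≠ 0 := left_ne_zero_of_mul h0
    have hr : l.prod ≠ 0 := right_ne_zero_of_mul h0
    rw [totalDegree_mul_of_isDomain hg hr] at h2
    have hg1 := hl g (by simp)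
    rcases Nat.eq_zero_or_pos g.totalDegree with h | h
    · obtain ⟨L₁, L₂, h3, h4, h5⟩ := ih (fun g' hg' => hl g' (by simp [hg'])) hr (by omega)
      refine ⟨g * L₁, L₂, ?_, h4, by rw [h5]; ring⟩
      exact (totalDegree_mul _ _).trans (by omega)
    · exact ⟨g, l.prod, hg1, by omega, rfl⟩

/-- the polynomial `x₁ - x₀ x₁ + x₀ x₂` -/
noncomputable def PP : MvPolynomial (Fin 3) (ZMod 3) := X 1 - X 0 * X 1 + X 0 * X 2

theorem PP_eval (x : Fin 3 → ZMod 3) : eval x PP = x 1 - x 0 * x 1 + x 0 * x 2 := by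
  simp [PP]

theorem PP_degree : PP.totalDegree = 2 := by
  apply le_antisymm
  · unfold PP
    refine (totalDegree_add _ _).trans (max_le ((totalDegree_sub _ _).trans (max_le ?_ ?_)) ?_)
    · rw [totalDegree_X]; norm_num
    · exact (totalDegree_mul _ _).trans (by rw [totalDegree_X, totalDegree_X])
    · exact (totalDegree_mul _ _).trans (by rw [totalDegree_X, totalDegree_X])
  · have h1 : coeff (Finsupp.single 0 1 + Finsupp.single 2 1) PP = 1 := by
      unfold PP
      rw [coeff_add, coeff_sub]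
      have e1 : coeff (Finsupp.single 0 1 + Finsupp.single 2 1)
          (X 1 : MvPolynomial (Fin 3) (ZMod 3)) = 0 := by
        rw [coeff_X, if_neg]
        intro h
        have := congrArg (fun m : Fin 3 →₀ ℕ => m 0) h
        simp at this
      have e2 : coeff (Finsupp.single 0 1 + Finsupp.single 2 1)
          (X 0 * X 1 : MvPolynomial (Fin 3) (ZMod 3)) = 0 := by
        rw [coeff_X_mul, coeff_X, if_neg]
        intro h
        have := congrArg (fun m : Fin 3 →₀ ℕ => m 1) h
        simp at this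
      have e3 : coeff (Finsupp.single 0 1 + Finsupp.single 2 1)
          (X 0 * X 2 : MvPolynomial (Fin 3) (ZMod 3)) = 1 := by
        rw [coeff_X_mul, coeff_X, if_pos rfl]
      rw [e1, e2, e3]
      ring
    have h2 : Finsupp.single 0 1 + Finsupp.single 2 1 ∈ PP.support := by
      rw [mem_support_iff, h1]
      decide
    have h3 := le_totalDegree h2
    have h4 : ((Finsupp.single 0 1 + Finsupp.single 2 1 : Fin 3 →₀ ℕ).sum fun _ e => e) = 2 := by
      rw [Finsupp.sum_add_index' (by simp) (by simp)]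
      simp
    omega

theorem two_le : 2 ≤ rkRelConst 1 {0, 1} PP := by
  refine le_iInf fun c => le_iInf fun P₀ => le_iInf fun hP₀ => le_iInf fun k => le_iInf fun hk => ?_
  obtain ⟨f, hf, hsum⟩ := hk
  by_contra hcon
  rw [not_le] at hcon
  have hk2 : k < 2 := by exact_mod_cast hcon
  have hval : ∀ x : Fin 3 → ZMod 3, (∀ i, x i ∈ ({0, 1} : Set (ZMod 3))) →
      x 1 - x 0 * x 1 + x 0 * x 2 - c = ∑ i, eval x (f i) := by
    intro x hx
    have h1 := congrArg (eval x) hsum
    rw [map_sum, map_sub, map_sub, PP_eval, eval_C, hP₀.2 x hx, sub_zero] at h1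
    exact h1
  have hin : ∀ a b d : Bool, ∀ i, (![if a then 1 else 0, if b then 1 else 0,
      if d then 1 else 0] : Fin 3 → ZMod 3) i ∈ ({0, 1} : Set (ZMod 3)) := by
    intro a b d i
    fin_cases i
    · cases a <;> simp
    · cases b <;> simp
    · cases d <;> simp
  have hdeg : (PP - C c - P₀).totalDegree ≤ 2 := by
    refine (totalDegree_sub _ _).trans (max_le ?_ (hP₀.1.trans ?_))
    · exact (totalDegree_sub _ _).trans (max_le PP_degree.le (by simp))
    · exact (totalDegree_sub _ _).trans (max_le PP_degree.le (by simp))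
  interval_cases k
  · have h1 := hval _ (hin false false false)
    have h2 := hval _ (hin false true false)
    have h3 := h2.trans h1.symm
    simp at h3
  · rw [Fin.sum_univ_one] at hsum
    obtain ⟨⟨l, hl, hfl⟩, hfd⟩ := hf 0
    have h0 : l.prod ≠ 0 := by
      intro h0
      have h1 := hval _ (hin false false false)
      have h2 := hval _ (hin false true false)
      rw [Fin.sum_univ_one, hfl, h0, map_zero] at h1 h2
      have h3 := h2.trans h1.symm
      simp at h3
    obtain ⟨L₁, L₂, h1, h2, h3⟩ := two_factors l hl h0 (by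
      rw [← hfl, ← hsum]; exact hdeg)
    have hv : ∀ x : Fin 3 → ZMod 3, (∀ i, x i ∈ ({0, 1} : Set (ZMod 3))) →
        x 1 - x 0 * x 1 + x 0 * x 2 - c =
        (coeff 0 L₁ + ∑ i, coeff (Finsupp.single i 1) L₁ * x i) *
        (coeff 0 L₂ + ∑ i, coeff (Finsupp.single i 1) L₂ * x i) := by
      intro x hx
      rw [hval x hx, Fin.sum_univ_one, hfl, h3, map_mul, affine_eval L₁ h1, affine_eval L₂ h2]
    refine key' c (coeff 0 L₁) (coeff (Finsupp.single 0 1) L₁) (coeff (Finsupp.single 1 1) L₁)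
      (coeff (Finsupp.single 2 1) L₁) (coeff 0 L₂) (coeff (Finsupp.single 0 1) L₂)
      (coeff (Finsupp.single 1 1) L₂) (coeff (Finsupp.single 2 1) L₂)
      ⟨?_, ?_, ?_, ?_, ?_, ?_, ?_, ?_⟩
    · have h := hv _ (hin false false false)
      simpa [Fin.sum_univ_three] using h
    · have h := hv _ (hin true false false)
      simpa [Fin.sum_univ_three] using h
    · have h := hv _ (hin false true false)
      simpa [Fin.sum_univ_three] using h
    · have h := hv _ (hin false false true)
      simpa [Fin.sum_univ_three] using h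
    · have h := hv _ (hin true true false)
      simpa [Fin.sum_univ_three, add_assoc] using h
    · have h := hv _ (hin true false true)
      simpa [Fin.sum_univ_three, add_assoc] using h
    · have h := hv _ (hin false true true)
      simpa [Fin.sum_univ_three, add_assoc] using h
    · have h := hv _ (hin true true true)
      simpa [Fin.sum_univ_three, add_assoc] using h

/-- The bound `p - 2` fails, already for `p = 3`, `S = {0, 1}`, `n = 3`. -/
theorem result : ¬ ∀ (p : ℕ) [Fact p.Prime], 3 ≤ p → ∀ S : Set (ZMod p), S.Nonempty →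
    ∀ (n : ℕ) (P : MvPolynomial (Fin n) (ZMod p)), P.totalDegree = 2 →
      (∃ v : ZMod p, ∀ x : Fin n → ZMod p, (∀ i, x i ∈ S) → eval x P ≠ v) →
        rkRelConst 1 S P ≤ ((p - 2 : ℕ) : ℕ∞) := by
  intro h
  have h1 := h 3 le_rfl {0, 1} ⟨0, by simp⟩ 3 PP PP_degree ⟨2, ?_⟩
  · have h2 := two_le.trans h1
    exact absurd h2 (by decide)
  · intro x hx
    rw [PP_eval]
    have h0 := hx 0
    have h1 := hx 1
    have h2 := hx 2
    simp only [Set.mem_insert_iff, Set.mem_singleton_iff] at h0 h1 h2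
    rcases h0 with h0 | h0 <;> rcases h1 with h1 | h1 <;> rcases h2 with h2 | h2 <;>
      rw [h0, h1, h2] <;> decide

end Pool.Agent.Results.MP_d05de0_co.RankTwo
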